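import Mathlib
import Pool.Agent.Lib_helper77.Pyth.TowerStep
import Pool.Agent.Lib_helper93.Pyth.Assembly
import Pool.Agent.Lib_helper93.Pyth.Small
import Pool.Agent.Lib_helper77.Pyth.Long

/-!
# Every positive integer is the Pythagoras number of the ring of integers of an infinite totally
real algebraic extension of `ℚ`
-/

namespace Pool.Agent.Results.MP_4e97f5_nt.EveryNumberOccurs

/-- An infinite totally real algebraic extension of `ℚ`: a subfield of `ℂ` that is algebraic over
`ℚ`, is not finite over `ℚ`, and has only real embeddings into `ℂ`. -/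
structure IsInfiniteTotallyReal (K : Subfield ℂ) : Prop where
  algebraic : ∀ x ∈ K, IsAlgebraic ℚ x
  infinite : ¬ FiniteDimensional ℚ K
  totallyReal : ∀ (φ : K →+* ℂ) (x : K), φ x ∈ Set.range ((↑) : ℝ → ℂ)

/-- Every element of `R` that is a finite sum of squares is a sum of `n` squares. -/
def AllSumsOf (R : Type*) [CommRing R] (n : ℕ) : Prop :=
  ∀ x : R, IsSumSq x → ∃ f : Fin n → R, x = ∑ i, f i ^ 2

/-- The Pythagoras number of `R`: the least `n ≥ 1` such that every finite sum of squares is a sum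
of `n` squares, and `⊤` if there is no such `n`. -/
noncomputable def pythagorasNumber (R : Type*) [CommRing R] : ℕ∞ :=
  sInf {m : ℕ∞ | ∃ n : ℕ, m = n ∧ 1 ≤ n ∧ AllSumsOf R n}

section Aux

variable {R : Type*} [CommRing R]

theorem pad {x : R} {k : ℕ} (h : ∃ f : Fin k → R, x = ∑ i, f i ^ 2) {n : ℕ} (hkn : k ≤ n) :
    ∃ f : Fin n → R, x = ∑ i, f i ^ 2 := by
  induction n, hkn using Nat.le_induction with
  | base => exact h
  | succ n _ ih =>
    obtain ⟨f, hf⟩ := ih
    refine ⟨Fin.cons 0 f, ?_⟩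
    rw [Fin.sum_univ_succ, hf]
    simp

theorem isSumSq_of {m : ℕ} (g : Fin m → R) : IsSumSq (∑ i, g i ^ 2) := by
  induction m with
  | zero => simp
  | succ m ih =>
    rw [Fin.sum_univ_succ, sq]
    exact IsSumSq.sq_add _ (ih _)

theorem of_isSumSq {x : R} (h : IsSumSq x) : ∃ (m : ℕ) (g : Fin m → R), x = ∑ i, g i ^ 2 := by
  induction h with
  | zero => exact ⟨0, Fin.elim0, by simp⟩
  | sq_add a _ ih =>
    obtain ⟨m, g, rfl⟩ := ih
    refine ⟨m + 1, Fin.cons a g, ?_⟩
    rw [Fin.sum_univ_succ]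
    simp [sq]

end Aux

/-- The statement for abstract fields. -/
theorem abstract_fields : ∀ n : ℕ, 1 ≤ n →
      ∃ (K : Type) (_ : Field K) (_ : CharZero K),
        Algebra.IsAlgebraic ℚ K ∧
        ¬ FiniteDimensional ℚ K ∧
        (∀ φ : K →+* ℂ, ∀ x : K, (φ x).im = 0) ∧
        (∀ x : K,
          (∃ m : ℕ, ∃ g : Fin m → K, (∀ i, IsIntegral ℤ (g i)) ∧ x = ∑ i, g i ^ 2) →
          ∃ f : Fin n → K, (∀ i, IsIntegral ℤ (f i)) ∧ x = ∑ i, f i ^ 2) ∧
        (∃ x : K,
          (∃ m : ℕ, ∃ g : Fin m → K, (∀ i, IsIntegral ℤ (g i)) ∧ x = ∑ i, g i ^ 2) ∧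
          ∀ f : Fin (n - 1) → K, (∀ i, IsIntegral ℤ (f i)) → x ≠ ∑ i, f i ^ 2) := by
  intro n hn
  rcases Nat.lt_or_ge n 4 with h | h
  · exact Pool.Agent.Pyth.Small.small_cases n hn (by omega)
  · exact Pool.Agent.Pyth.main_of
      (fun L _ hL n α β hα hα4 hβ hβpos hlt =>
        Pool.Agent.Pyth.tower_step L hL n α β hα hα4 hβ hβpos hlt)
      Pool.Agent.Pyth.exists_long n h

open NumberField in
/-- **Main theorem.** For every `n ≥ 1` there is an infinite totally real algebraic extension `K`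
of `ℚ` whose ring of integers has Pythagoras number `n`. Moreover all finite subextensions of
`K / ℚ` are totally real number fields. -/
theorem result (n : ℕ) (hn : 1 ≤ n) :
    ∃ K : Subfield ℂ, IsInfiniteTotallyReal K ∧
      (∀ F : IntermediateField ℚ K, FiniteDimensional ℚ F → NumberField F ∧ IsTotallyReal F) ∧
      pythagorasNumber (𝓞 K) = n := by
  obtain ⟨K0, _, _, halg, hinf, hreal, hle, x0, ⟨m0, g0, hg0, hx0⟩, hx0'⟩ :=
    abstract_fields n hn
  -- the subfield of `ℂ`
  let φ : K0 →ₐ[ℚ] ℂ := IsAlgClosed.lift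
  let K : Subfield ℂ := (φ : K0 →+* ℂ).fieldRange
  let e : K0 ≃+* K := RingEquiv.ofBijective ((φ : K0 →+* ℂ).rangeRestrictField)
    ⟨(RingHom.rangeRestrictField_bijective _).1, (RingHom.rangeRestrictField_bijective _).2⟩
  have hKreal : ∀ (ψ : K →+* ℂ) (x : K), (ψ x).im = 0 := by
    intro ψ x
    have h := hreal (ψ.comp (e : K0 →+* K)) (e.symm x)
    simpa using h
  have hint : ∀ x : K0, IsIntegral ℤ x → IsIntegral ℤ (e x) := fun x hx =>
    hx.map (e : K0 →+* K).toIntAlgHom
  have hint' : ∀ x : K, IsIntegral ℤ x → IsIntegral ℤ (e.symm x) := fun x hx =>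
    hx.map (e.symm : K →+* K0).toIntAlgHom
  refine ⟨K, ⟨?_, ?_, ?_⟩, ?_, ?_⟩
  · rintro _ ⟨y, rfl⟩
    exact (halg.isAlgebraic y).algHom φ
  · intro hfd
    apply hinf
    have : FiniteDimensional ℚ K := hfd
    exact Module.Finite.equiv (e.symm : K ≃+* K0).toRatAlgEquiv.toLinearEquiv
  · intro ψ x
    exact ⟨(ψ x).re, Complex.ext (Complex.ofReal_re _) (by
      rw [Complex.ofReal_im, hKreal ψ x])⟩
  · intro F hF
    have hKalg : Algebra.IsAlgebraic ℚ K := ⟨fun x => by
      obtain ⟨y, rfl⟩ := e.surjective x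
      exact (halg.isAlgebraic y).algHom (e : K0 ≃+* K).toRatAlgEquiv.toAlgHom⟩
    have hFK : Algebra.IsAlgebraic F K := Algebra.IsAlgebraic.tower_top (K := ℚ) F
    have hFc : CharZero F := inferInstance
    refine ⟨{ to_charZero := hFc, to_finiteDimensional := hF }, ⟨fun v => ?_⟩⟩
    rw [InfinitePlace.isReal_iff, ComplexEmbedding.isReal_iff]
    let _ : Algebra F ℂ := v.embedding.toAlgebra
    let ψ : K →ₐ[F] ℂ := IsAlgClosed.lift
    ext x
    rw [ComplexEmbedding.conjugate_coe_eq, Complex.conj_eq_iff_im]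
    have h1 : ψ (algebraMap F K x) = v.embedding x := ψ.commutes x
    rw [← h1]
    exact hKreal (ψ : K →+* ℂ) _
  · apply le_antisymm
    · apply sInf_le
      refine ⟨n, rfl, hn, ?_⟩
      intro x hx
      obtain ⟨m, g, rfl⟩ := of_isSumSq hx
      obtain ⟨f, hf, hf'⟩ := hle (∑ i, (e.symm (g i : K)) ^ 2)
        ⟨m, fun i => e.symm (g i : K), fun i => hint' _ (g i).2, rfl⟩
      refine ⟨fun i => ⟨e (f i), hint _ (hf i)⟩, ?_⟩
      apply RingOfIntegers.ext
      have h2 := congrArg e hf'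
      simp only [map_sum, map_pow, RingEquiv.apply_symm_apply] at h2
      simp only [map_sum, map_pow]
      exact h2
    · apply le_sInf
      rintro _ ⟨k, rfl, hk, hkP⟩
      rw [Nat.cast_le]
      by_contra hlt
      have hk' : k ≤ n - 1 := by omega
      have h3 := hkP (∑ i, (⟨e (g0 i), hint _ (hg0 i)⟩ : 𝓞 K) ^ 2) (isSumSq_of _)
      obtain ⟨f, hf⟩ := pad h3 hk'
      apply hx0' (fun i => e.symm (f i : K)) fun i => hint' _ (f i).2
      apply e.injective
      have h4 := congrArg (fun t : 𝓞 K => (t : K)) hf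
      simp only [map_sum, map_pow] at h4
      rw [hx0]
      simp only [map_sum, map_pow, RingEquiv.apply_symm_apply]
      exact h4

end Pool.Agent.Results.MP_4e97f5_nt.EveryNumberOccurs
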